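import Mathlib

/-!
# Polynomials in `x` and `conj x`
-/

set_option autoImplicit false

open scoped ComplexConjugate

namespace Run7.h153.EK

/-- a polynomial in `x` and `y` -/
noncomputable def sesq {g : ℕ} (h : Matrix (Fin g) (Fin g) ℂ) (x y : ℂ) : ℂ :=
  ∑ k, ∑ l, h k l * (x ^ (k : ℕ) * y ^ (l : ℕ))

open Polynomial in
theorem sesq_eq_zero {g : ℕ} {h : Matrix (Fin g) (Fin g) ℂ} (H : ∀ x : ℂ, sesq h x (conj x) = 0) :
    h = 0 := by
  have key : ∀ P : ℂ[X], (∀ u : ℝ, P.eval (u : ℂ) = 0) → P = 0 := by
    intro P hP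
    refine Polynomial.eq_zero_of_infinite_isRoot P ?_
    refine Set.Infinite.mono (s := Set.range fun u : ℝ => (u : ℂ)) ?_
      (Set.infinite_range_of_injective Complex.ofReal_injective)
    rintro _ ⟨u, rfl⟩
    exact hP u
  have h1 : ∀ (u : ℂ) (v : ℝ), sesq h (u + Complex.I * v) (u - Complex.I * v) = 0 := by
    intro u v
    have h2 := key (∑ k, ∑ l, C (h k l) * ((X + C (Complex.I * v)) ^ (k : ℕ) *
      (X - C (Complex.I * v)) ^ (l : ℕ))) (fun u => by
        have h3 := H (u + Complex.I * v)
        have h4 : conj ((u : ℂ) + Complex.I * v) = u - Complex.I * v := by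
          simp only [map_add, map_mul, Complex.conj_ofReal, Complex.conj_I]
          ring
        rw [h4] at h3
        simpa [sesq, eval_finsetSum] using h3)
    have h3 := congrArg (Polynomial.eval u) h2
    simpa [sesq, eval_finsetSum] using h3
  have h2 : ∀ u v : ℂ, sesq h (u + Complex.I * v) (u - Complex.I * v) = 0 := by
    intro u v
    have h3 := key (∑ k, ∑ l, C (h k l) * ((C u + C Complex.I * X) ^ (k : ℕ) *
      (C u - C Complex.I * X) ^ (l : ℕ))) (fun v => by
        simpa [sesq, eval_finsetSum] using h1 u v)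
    have h4 := congrArg (Polynomial.eval v) h3
    simpa [sesq, eval_finsetSum] using h4
  have h3 : ∀ x y : ℂ, sesq h x y = 0 := by
    intro x y
    have h4 := h2 ((x + y) / 2) (-Complex.I * (x - y) / 2)
    have e1 : (x + y) / 2 + Complex.I * (-Complex.I * (x - y) / 2) = x := by
      linear_combination (-(x - y) / 2) * Complex.I_sq
    have e2 : (x + y) / 2 - Complex.I * (-Complex.I * (x - y) / 2) = y := by
      linear_combination ((x - y) / 2) * Complex.I_sq
    rwa [e1, e2] at h4
  have h4 : ∀ (c : Fin g → ℂ), (∀ x : ℂ, ∑ k, c k * x ^ (k : ℕ) = 0) → ∀ k, c k = 0 := by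
    intro c hc k
    have h5 := key (∑ k : Fin g, C (c k) * X ^ (k : ℕ)) (fun u => by
      simpa [eval_finsetSum] using hc u)
    have h6 := congrArg (fun P => Polynomial.coeff P (k : ℕ)) h5
    simp only [finsetSum_coeff, coeff_C_mul_X_pow, coeff_zero] at h6
    rw [Finset.sum_eq_single k] at h6
    · simpa using h6
    · intro j _ hj
      rw [if_neg]
      exact fun h => hj (Fin.ext h.symm)
    · intro h
      exact absurd (Finset.mem_univ k) h
  ext k l
  have h5 : ∀ y : ℂ, ∑ l, h k l * y ^ (l : ℕ) = 0 := fun y =>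
    h4 (fun k => ∑ l, h k l * y ^ (l : ℕ)) (fun x => by
      have := h3 x y
      rw [sesq] at this
      rw [← this]
      refine Finset.sum_congr rfl fun k _ => ?_
      rw [Finset.sum_mul]
      refine Finset.sum_congr rfl fun l _ => ?_
      ring) k
  exact h4 (fun l => h k l) h5 l

end Run7.h153.EK
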