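import Pool.Agent.Run7.h153.EK.Pot2
import Pool.Agent.Run7.h153.EK.Sesq

/-!
# The regulators of two points of a hyperelliptic curve span the hermitian forms
-/

set_option autoImplicit false

open MeasureTheory Polynomial
open scoped ComplexConjugate Topology

namespace Run7.h153.EK

open Run7.h298.EE

/-- the roots of `D` as a family -/
theorem exists_family {g : ℕ} (hg : 1 ≤ g) {D : ℂ[X]} (hD : Squarefree D) (hdeg : D.natDegree = 2 * g + 2) :
    ∃ (r : {x : ℂ // x ∈ D.roots.toFinset} → ℂ) (a : ℝ), 0 < a ∧ Function.Injective r ∧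
      Fintype.card {x : ℂ // x ∈ D.roots.toFinset} = (2 * g - 2) + 4 ∧
      Nonempty {x : ℂ // x ∈ D.roots.toFinset} ∧ ∀ x, ‖D.eval x‖ = a * ∏ i, ‖x - r i‖ := by
  classical
  have hD0 : D ≠ 0 := hD.ne_zero
  have hsep : D.Separable := (PerfectField.separable_iff_squarefree).2 hD
  have hnodup : D.roots.Nodup := nodup_roots hsep
  have hcard0 : Multiset.card D.roots = D.natDegree :=
    (splits_iff_card_roots).1 (IsAlgClosed.splits D)
  have hcard : Fintype.card {x : ℂ // x ∈ D.roots.toFinset} = (2 * g - 2) + 4 := by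
    have h1 : Fintype.card {x : ℂ // x ∈ D.roots.toFinset} = D.roots.toFinset.card := Fintype.card_coe _
    rw [h1, Multiset.toFinset_card_of_nodup hnodup, hcard0, hdeg]
    omega
  refine ⟨fun i => i.1, ‖D.leadingCoeff‖, norm_pos_iff.2 (leadingCoeff_ne_zero.2 hD0),
    Subtype.val_injective, hcard, ?_, ?_⟩
  · rw [← Fintype.card_pos_iff, hcard]
    omega
  · intro x
    have h1 := C_leadingCoeff_mul_prod_multiset_X_sub_C hcard0
    have h2 : D.eval x = D.leadingCoeff * ∏ i : {x : ℂ // x ∈ D.roots.toFinset}, (x - i.1) := by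
      conv_lhs => rw [← h1]
      rw [eval_mul, eval_C, eval_multiset_prod, Multiset.map_map]
      congr 1
      have h3 : ∏ i : {x : ℂ // x ∈ D.roots.toFinset}, (x - i.1) = ∏ y ∈ D.roots.toFinset, (x - y) :=
        Finset.prod_coe_sort D.roots.toFinset (fun y => x - y)
      rw [h3, Finset.prod, Multiset.toFinset_val, Multiset.dedup_eq_self.2 hnodup]
      congr 1
      refine Multiset.map_congr rfl fun y _ => ?_
      simp
    rw [h2, norm_mul, norm_prod]

variable {g : ℕ}

/-- the integrals converge, uniformly -/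
theorem bound (hg : 1 ≤ g) {D : ℂ[X]} (hD : Squarefree D) (hdeg : D.natDegree = 2 * g + 2) {ω : ℂ → ℝ}
    (hω : Measurable ω) (h0 : ∀ x, 0 ≤ ω x) {Cω : ℝ} (hC0 : 0 ≤ Cω)
    (hC : ∀ x, ω x ≤ Cω * (1 + ‖x‖) ^ (2 * g - 2)) (A : ℝ) :
    ∃ K : ℝ, ∀ u v : ℂ, ‖u‖ ≤ A → ‖v‖ ≤ A →
      Integrable (fun x : ℂ => |Real.log (‖x - u‖ / ‖x - v‖)| * (ω x / ‖D.eval x‖)) ∧
      ∫ x : ℂ, |Real.log (‖x - u‖ / ‖x - v‖)| * (ω x / ‖D.eval x‖) ≤ K := by
  obtain ⟨r, a, ha, hr, hcard, hne, hDn⟩ := exists_family hg hD hdeg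
  obtain ⟨K, hK⟩ := kern ha hr hcard hω h0 hC0 hC A
  refine ⟨K, fun u v hu hv => ?_⟩
  simp only [hDn]
  exact hK u v hu hv

theorem integrable_entry (hg : 1 ≤ g) {D : ℂ[X]} (hD : Squarefree D) (hdeg : D.natDegree = 2 * g + 2)
    (a b : ℂ) {k l : ℕ} (hk : k < g) (hl : l < g) : Integrable fun x : ℂ =>
      ((Real.log (‖x - a‖ / ‖x - b‖) / ‖D.eval x‖ : ℝ) : ℂ) * (x ^ k * conj (x ^ l)) := by
  have hω : Measurable (fun x : ℂ => ‖x‖ ^ (k + l)) := by fun_prop
  obtain ⟨K, hK⟩ := bound hg hD hdeg hω (fun x => by positivity) (Cω := 1) zero_le_one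
    (fun x => by
      rw [one_mul]
      calc ‖x‖ ^ (k + l) ≤ (1 + ‖x‖) ^ (k + l) :=
            pow_le_pow_left₀ (norm_nonneg _) (by linarith) _
        _ ≤ (1 + ‖x‖) ^ (2 * g - 2) :=
            pow_le_pow_right₀ (by linarith [norm_nonneg x]) (by omega)) (‖a‖ + ‖b‖)
  have h := (hK a b (by linarith [norm_nonneg b]) (by linarith [norm_nonneg a])).1
  refine h.mono ?_ (Filter.Eventually.of_forall fun x => ?_)
  · refine Measurable.aestronglyMeasurable ?_
    have hDm : Measurable (fun x : ℂ => D.eval x) := D.continuous.measurable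
    fun_prop
  · refine le_of_eq ?_
    simp only [norm_mul, norm_div, Complex.norm_real, Real.norm_eq_abs, norm_pow, abs_abs, abs_norm,
      RCLike.norm_conj]
    rw [pow_add]
    ring

theorem norm_sesq_le (h : Matrix (Fin g) (Fin g) ℂ) (x : ℂ) :
    ‖sesq h x (conj x)‖ ≤ (∑ k, ∑ l, ‖h k l‖) * (1 + ‖x‖) ^ (2 * g - 2) := by
  unfold sesq
  rw [Finset.sum_mul]
  refine (norm_sum_le _ _).trans (Finset.sum_le_sum fun k _ => ?_)
  rw [Finset.sum_mul]
  refine (norm_sum_le _ _).trans (Finset.sum_le_sum fun l _ => ?_)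
  rw [norm_mul]
  refine mul_le_mul_of_nonneg_left ?_ (norm_nonneg _)
  have h1 := k.2
  have h2 := l.2
  calc ‖x ^ (k : ℕ) * conj x ^ (l : ℕ)‖ = ‖x‖ ^ ((k : ℕ) + l) := by
        rw [norm_mul, norm_pow, norm_pow, RCLike.norm_conj, pow_add]
    _ ≤ (1 + ‖x‖) ^ ((k : ℕ) + l) := pow_le_pow_left₀ (norm_nonneg _) (by linarith) _
    _ ≤ (1 + ‖x‖) ^ (2 * g - 2) := pow_le_pow_right₀ (by linarith [norm_nonneg x]) (by omega)

theorem continuous_sesq (h : Matrix (Fin g) (Fin g) ℂ) : Continuous fun x : ℂ => sesq h x (conj x) := by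
  unfold sesq
  fun_prop

/-- a form annihilated by all logarithmic kernels is zero -/
theorem annihilator (hg : 1 ≤ g) {D : ℂ[X]} (hD : Squarefree D) (hdeg : D.natDegree = 2 * g + 2)
    {h : Matrix (Fin g) (Fin g) ℂ}
    (hz : ∀ a b : ℂ, ∫ x : ℂ, ((Real.log (‖x - a‖ / ‖x - b‖) : ℝ) : ℂ) *
      (sesq h x (conj x) / ‖D.eval x‖) = 0) : h = 0 := by
  have hDc : Continuous fun x : ℂ => ‖D.eval x‖ := D.continuous.norm
  set ψ : ℂ → ℂ := fun x => sesq h x (conj x) / ‖D.eval x‖ with hψdef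
  have hψm : Measurable ψ :=
    (continuous_sesq h).measurable.div (Complex.continuous_ofReal.comp hDc).measurable
  have claim : ∀ c : ℂ, D.eval c ≠ 0 → sesq h c (conj c) = 0 := by
    intro c hc
    by_contra hne
    have hDn : (‖D.eval c‖ : ℂ) ≠ 0 := by exact_mod_cast norm_ne_zero_iff.2 hc
    have hψc : ψ c ≠ 0 := div_ne_zero hne hDn
    have hcont : ContinuousAt ψ c :=
      (continuous_sesq h).continuousAt.div (Complex.continuous_ofReal.comp hDc).continuousAt hDn
    have hq : ContinuousAt (fun x => (conj (ψ c) * ψ x).re) c :=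
      Complex.continuous_re.continuousAt.comp (continuousAt_const.mul hcont)
    have hqc : 0 < (conj (ψ c) * ψ c).re := by
      rw [mul_comm, Complex.mul_conj, Complex.ofReal_re]
      exact Complex.normSq_pos.2 hψc
    obtain ⟨ρ, hρ, hball⟩ := Metric.eventually_nhds_iff.1 (hq.eventually (lt_mem_nhds hqc))
    obtain ⟨K, hK⟩ := bound hg hD hdeg (ω := fun x => ‖sesq h x (conj x)‖)
      (continuous_sesq h).norm.measurable (fun x => norm_nonneg _)
      (Cω := ∑ k, ∑ l, ‖h k l‖) (Finset.sum_nonneg fun k _ => Finset.sum_nonneg fun l _ => norm_nonneg _)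
      (norm_sesq_le h) (‖c‖ + ρ)
    obtain ⟨hI, h0⟩ := avg_zero (ψ := ψ) hψm (c := c) hρ (H := fun x => ‖sesq h x (conj x)‖ / ‖D.eval x‖)
      (fun x => by
        rw [hψdef]
        simp only [norm_div, Complex.norm_real, norm_norm]
        exact le_refl _) hK hz
    have hI2 : Integrable fun x => wk c ρ x * (conj (ψ c) * ψ x).re := by
      have h1 := (hI.const_mul (conj (ψ c))).re
      refine h1.congr (Filter.Eventually.of_forall fun x => ?_)
      change (conj (ψ c) * (((wk c ρ x : ℝ) : ℂ) * ψ x)).re = wk c ρ x * (conj (ψ c) * ψ x).re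
      rw [← Complex.re_ofReal_mul]
      congr 1
      ring
    have h02 : ∫ x, wk c ρ x * (conj (ψ c) * ψ x).re = 0 := by
      have h1 : ∫ x, conj (ψ c) * (((wk c ρ x : ℝ) : ℂ) * ψ x) = 0 := by
        rw [integral_const_mul, h0, mul_zero]
      have h2 := integral_re (hI.const_mul (conj (ψ c)))
      rw [h1] at h2
      have h3 : ∫ x, wk c ρ x * (conj (ψ c) * ψ x).re =
          ∫ x, RCLike.re (conj (ψ c) * (((wk c ρ x : ℝ) : ℂ) * ψ x)) := by
        refine integral_congr_ae (Filter.Eventually.of_forall fun x => ?_)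
        change _ = (conj (ψ c) * (((wk c ρ x : ℝ) : ℂ) * ψ x)).re
        simp only
        rw [← Complex.re_ofReal_mul]
        congr 1
        ring
      rw [h3, h2]
      simp
    have hnn : ∀ᵐ x : ℂ, 0 ≤ wk c ρ x * (conj (ψ c) * ψ x).re := by
      have hc0 : volume ({c} : Set ℂ) = 0 := by simp
      filter_upwards [compl_mem_ae_iff.2 hc0] with x hx
      rcases lt_or_ge ‖x - c‖ ρ with h1 | h1
      · exact mul_nonneg (wk_nonneg hρ hx) (hball (by rwa [dist_eq_norm])).le
      · rw [wk_eq_zero hρ h1, zero_mul]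
    have hae := (integral_eq_zero_iff_of_nonneg_ae hnn hI2).1 h02
    have hnot : ∀ᵐ x : ℂ, x ∉ Metric.ball c ρ := by
      have hc0 : volume ({c} : Set ℂ) = 0 := by simp
      filter_upwards [hae, compl_mem_ae_iff.2 hc0] with x hx hxc hxb
      rw [Metric.mem_ball] at hxb
      have h1 := mul_pos (wk_pos (ρ := ρ) (c := c) hxc (by rwa [← dist_eq_norm])) (hball hxb)
      rw [hx] at h1
      simp at h1
    have h6 : volume (Metric.ball c ρ) = 0 := by
      rw [ae_iff] at hnot
      have e : {x : ℂ | ¬ x ∉ Metric.ball c ρ} = Metric.ball c ρ := by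
        ext x
        simp only [not_not, Set.mem_ofPred_eq]
      rwa [e] at hnot
    exact (Metric.measure_ball_pos volume c hρ).ne' h6
  apply sesq_eq_zero
  intro x
  have hfin : {x : ℂ | D.eval x = 0}.Finite := by
    have h1 := D.roots.toFinset.finite_toSet
    refine h1.subset fun x hx => ?_
    rw [Finset.mem_coe, Multiset.mem_toFinset, mem_roots hD.ne_zero]
    exact hx
  have hdense : Dense {x : ℂ | D.eval x = 0}ᶜ := hfin.countable.dense_compl ℝ
  have hcl : IsClosed {x : ℂ | sesq h x (conj x) = 0} := isClosed_eq (continuous_sesq h) continuous_const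
  have hsub : {x : ℂ | D.eval x = 0}ᶜ ⊆ {x : ℂ | sesq h x (conj x) = 0} := fun x hx => claim x hx
  exact (hcl.closure_subset_iff.2 hsub) (hdense x)

end Run7.h153.EK
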