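import Pool.Agent.Run7.h298.EE.H

/-!
# Logarithmic kernels against `ω / (a ∏ |x - r_i|)`
-/

set_option autoImplicit false

open MeasureTheory Polynomial Real
open scoped ComplexConjugate Topology

namespace Run7.h153.EK

open Run7.h298.EE

variable {ι : Type} [Fintype ι]

/-- pointwise bounds -/
lemma bnds [Nonempty ι] {a : ℝ} (ha : 0 < a) {r : ι → ℂ} (hr : Function.Injective r) {m : ℕ}
    (hcard : Fintype.card ι = m + 4) {ω : ℂ → ℝ} {Cω : ℝ}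
    (hC0 : 0 ≤ Cω) (hC : ∀ x, ω x ≤ Cω * (1 + ‖x‖) ^ m) {R : ℝ} (hR1 : 1 ≤ R)
    (hrR : ∀ i, ‖r i‖ ≤ R / 2) :
    ∃ C1 C2 : ℝ, 0 ≤ C1 ∧ 0 ≤ C2 ∧
      (∀ x, (∀ i, x ≠ r i) → ‖x‖ ≤ R → ω x / (a * ∏ i, ‖x - r i‖) ≤ C1 * ∑ i, ‖x - r i‖⁻¹) ∧
      ∀ x, R < ‖x‖ → ω x / (a * ∏ i, ‖x - r i‖) ≤ C2 * (1 + ‖x‖) ^ (-(3 : ℝ)) := by
  obtain ⟨s, hs, hsep⟩ := exists_sep r hr
  have hR : 0 < R := by linarith
  set C1 : ℝ := Cω * (1 + R) ^ m * (a⁻¹ * (2 / s) ^ (Fintype.card ι - 1)) with hC1def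
  have hC1 : 0 ≤ C1 := by positivity
  set C3 : ℝ := Cω * 2 ^ m * 2 ^ (m + 4) / a with hC3def
  have hC3 : 0 ≤ C3 := by positivity
  have hpr : ∀ x, 0 ≤ ∏ i, ‖x - r i‖ := fun x => Finset.prod_nonneg fun i _ => norm_nonneg _
  refine ⟨C1, 8 * C3, hC1, by positivity, ?_, ?_⟩
  · intro x hx hxR
    have h1 : ω x ≤ Cω * (1 + R) ^ m := by
      refine (hC x).trans (mul_le_mul_of_nonneg_left ?_ hC0)
      exact pow_le_pow_left₀ (by positivity) (by linarith) m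
    have h2 := inv_prod_le r hs hsep hx
    rw [div_eq_mul_inv, mul_inv]
    calc ω x * (a⁻¹ * (∏ i, ‖x - r i‖)⁻¹)
        ≤ (Cω * (1 + R) ^ m) * (a⁻¹ * ((2 / s) ^ (Fintype.card ι - 1) * ∑ i, ‖x - r i‖⁻¹)) := by
          refine mul_le_mul h1 ?_ ?_ (by positivity)
          · exact mul_le_mul_of_nonneg_left h2 (by positivity)
          · have := hpr x
            positivity
      _ = C1 * ∑ i, ‖x - r i‖⁻¹ := by rw [hC1def]; ring
  · intro x hxR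
    have hx1 : 1 ≤ ‖x‖ := by linarith
    have hx0 : 0 < ‖x‖ := by linarith
    have hlow : (‖x‖ / 2) ^ (m + 4) ≤ ∏ i, ‖x - r i‖ := by
      have : (‖x‖ / 2) ^ (m + 4) = ∏ _i : ι, (‖x‖ / 2) := by
        rw [Finset.prod_const, Finset.card_univ, hcard]
      rw [this]
      refine Finset.prod_le_prod (fun i _ => by positivity) fun i _ => ?_
      have := norm_sub_norm_le x (r i)
      linarith [hrR i]
    have hup : ω x ≤ Cω * (2 * ‖x‖) ^ m := by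
      refine (hC x).trans (mul_le_mul_of_nonneg_left ?_ hC0)
      exact pow_le_pow_left₀ (by positivity) (by linarith) m
    refine tail_of hx1 hC3 ?_
    calc ω x / (a * ∏ i, ‖x - r i‖)
        ≤ (Cω * (2 * ‖x‖) ^ m) / (a * (‖x‖ / 2) ^ (m + 4)) :=
          div_le_div₀ (by positivity) hup (by positivity)
            (mul_le_mul_of_nonneg_left hlow ha.le)
      _ = C3 / ‖x‖ ^ 4 := by
          rw [hC3def, mul_pow, div_pow, pow_add ‖x‖ m 4]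
          field_simp
      _ ≤ C3 / ‖x‖ ^ 3 := by
          refine div_le_div_of_nonneg_left hC3 (by positivity) ?_
          exact pow_le_pow_right₀ hx1 (by norm_num)

/-- the uniform bound of the logarithmic kernels -/
lemma kern [Nonempty ι] {a : ℝ} (ha : 0 < a) {r : ι → ℂ} (hr : Function.Injective r) {m : ℕ}
    (hcard : Fintype.card ι = m + 4) {ω : ℂ → ℝ} (hω : Measurable ω) (h0 : ∀ x, 0 ≤ ω x) {Cω : ℝ}
    (hC0 : 0 ≤ Cω) (hC : ∀ x, ω x ≤ Cω * (1 + ‖x‖) ^ m) (A : ℝ) :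
    ∃ K : ℝ, ∀ u v : ℂ, ‖u‖ ≤ A → ‖v‖ ≤ A →
      Integrable (fun x : ℂ => |Real.log (‖x - u‖ / ‖x - v‖)| * (ω x / (a * ∏ i, ‖x - r i‖))) ∧
      ∫ x : ℂ, |Real.log (‖x - u‖ / ‖x - v‖)| * (ω x / (a * ∏ i, ‖x - r i‖)) ≤ K := by
  set R : ℝ := 1 + 2 * ∑ i, ‖r i‖ + 2 * |A| with hRdef
  have hsum : 0 ≤ ∑ i, ‖r i‖ := Finset.sum_nonneg fun i _ => norm_nonneg _
  have hA := abs_nonneg A
  have hR : 0 < R := by positivity
  have hR1 : 1 ≤ R := by linarith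
  have hrR : ∀ i, ‖r i‖ ≤ R / 2 := by
    intro i
    have := Finset.single_le_sum (f := fun i => ‖r i‖) (fun i _ => norm_nonneg _)
      (Finset.mem_univ i)
    linarith
  obtain ⟨C1, C2, hC1, hC2, hha, hhb⟩ := bnds ha hr hcard hC0 hC hR1 hrR
  have hpr : ∀ x, 0 ≤ ∏ i, ‖x - r i‖ := fun x => Finset.prod_nonneg fun i _ => norm_nonneg _
  have hh0 : ∀ x, 0 ≤ ω x / (a * ∏ i, ‖x - r i‖) := fun x =>
    div_nonneg (h0 x) (mul_nonneg ha.le (hpr x))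
  have hmP : Measurable (fun x : ℂ => a * ∏ i, ‖x - r i‖) := by fun_prop
  set M : ℝ := 4 * C1 * (2 * R + 1) * (1 + Fintype.card (ι ⊕ Fin 2)) + 2 * C2 with hM
  refine ⟨M * ((∫ t : ℂ, (1 + ‖t‖) ^ (-(3 : ℝ))) + Fintype.card (ι ⊕ Fin 2) * ∫ s, phi (2 * R) s),
    fun u v hu hv => ?_⟩
  set r' : ι ⊕ Fin 2 → ℂ := Sum.elim r ![u, v] with hr'
  have hr'R : ∀ i, ‖r' i‖ ≤ R / 2 := by
    rintro (i | i)
    · exact hrR i
    · have hAA := le_abs_self A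
      fin_cases i
      · simp only [hr', Sum.elim_inr]
        change ‖u‖ ≤ R / 2
        linarith
      · simp only [hr', Sum.elim_inr]
        change ‖v‖ ≤ R / 2
        linarith
  have hmL : Measurable (fun x : ℂ => |Real.log (‖x - u‖ / ‖x - v‖)|) := by fun_prop
  have hb : ∀ᵐ x : ℂ, |Real.log (‖x - u‖ / ‖x - v‖)| * (ω x / (a * ∏ i, ‖x - r i‖)) ≤
      M * Maj (2 * R) r' x := by
    filter_upwards [ae_ne r'] with x hx
    refine log_mul_le (r := r') hR hr'R hC1 hC2 hx (hh0 x) (fun h => ?_) (hhb x) (Sum.inr 0) (Sum.inr 1)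
    refine (hha x (fun i => hx (Sum.inl i)) h).trans (mul_le_mul_of_nonneg_left ?_ hC1)
    rw [Fintype.sum_sum_type]
    have : 0 ≤ ∑ i : Fin 2, ‖x - r' (Sum.inr i)‖⁻¹ := Finset.sum_nonneg fun i _ => by positivity
    simp only [hr', Sum.elim_inl] at this ⊢
    linarith
  have hnn : ∀ x : ℂ, 0 ≤ |Real.log (‖x - u‖ / ‖x - v‖)| * (ω x / (a * ∏ i, ‖x - r i‖)) := fun x =>
    mul_nonneg (abs_nonneg _) (hh0 x)
  have hMaj := (integrable_Maj (ρ := 2 * R) (by positivity) r').const_mul M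
  have hI : Integrable (fun x : ℂ => |Real.log (‖x - u‖ / ‖x - v‖)| * (ω x / (a * ∏ i, ‖x - r i‖))) := by
    refine hMaj.mono' (hmL.mul (hω.div hmP)).aestronglyMeasurable ?_
    filter_upwards [hb] with x hx
    rwa [Real.norm_eq_abs, abs_of_nonneg (hnn x)]
  refine ⟨hI, ?_⟩
  calc ∫ x : ℂ, |Real.log (‖x - u‖ / ‖x - v‖)| * (ω x / (a * ∏ i, ‖x - r i‖))
      ≤ ∫ x, M * Maj (2 * R) r' x := integral_mono_ae hI hMaj hb
    _ = _ := by rw [integral_const_mul, integral_Maj (by positivity)]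

end Run7.h153.EK
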