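import Pool.Agent.Run7.h153.EK.Pot

/-!
# Circle averages of logarithmic potentials, and polynomials in `x` and `conj x`
-/

set_option autoImplicit false

open MeasureTheory Real
open scoped ComplexConjugate Topology

namespace Run7.h153.EK

/-- the averaged kernel -/
noncomputable def wk (c : ℂ) (ρ : ℝ) (x : ℂ) : ℝ :=
  Real.log ρ + Real.posLog (ρ⁻¹ * ‖c - x‖) - Real.log ‖x - c‖

theorem avg_zero {ψ : ℂ → ℂ} (hψ : Measurable ψ) {c : ℂ} {ρ : ℝ} (hρ : 0 < ρ) {H : ℂ → ℝ}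
    (hH : ∀ x, ‖ψ x‖ ≤ H x) {K : ℝ}
    (hk : ∀ u v : ℂ, ‖u‖ ≤ ‖c‖ + ρ → ‖v‖ ≤ ‖c‖ + ρ →
      Integrable (fun x : ℂ => |Real.log (‖x - u‖ / ‖x - v‖)| * H x) ∧
      ∫ x : ℂ, |Real.log (‖x - u‖ / ‖x - v‖)| * H x ≤ K)
    (hz : ∀ u v : ℂ, ∫ x : ℂ, ((Real.log (‖x - u‖ / ‖x - v‖) : ℝ) : ℂ) * ψ x = 0) :
    Integrable (fun x => ((wk c ρ x : ℝ) : ℂ) * ψ x) ∧ ∫ x, ((wk c ρ x : ℝ) : ℂ) * ψ x = 0 := by
  set μ : Measure ℝ := volume.restrict (Set.Ioc 0 (2 * π)) with hμ
  have hfin : IsFiniteMeasure μ := by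
    rw [hμ]
    infer_instance
  set f : ℝ × ℂ → ℂ := fun p =>
    ((Real.log (‖p.2 - circleMap c ρ p.1‖ / ‖p.2 - c‖) : ℝ) : ℂ) * ψ p.2 with hf
  have hcm : Measurable fun p : ℝ × ℂ => circleMap c ρ p.1 :=
    ((continuous_circleMap c ρ).measurable).comp measurable_fst
  have hmeas : Measurable f := by
    have h1 : Measurable fun p : ℝ × ℂ => ‖p.2 - circleMap c ρ p.1‖ / ‖p.2 - c‖ :=
      ((measurable_snd.sub hcm).norm).div ((measurable_snd.sub measurable_const).norm)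
    exact (Complex.measurable_ofReal.comp (Real.measurable_log.comp h1)).mul (hψ.comp measurable_snd)
  have hcn : ∀ θ : ℝ, ‖circleMap c ρ θ‖ ≤ ‖c‖ + ρ := by
    intro θ
    have h1 := norm_circleMap_zero ρ θ
    have h2 : circleMap c ρ θ = c + circleMap 0 ρ θ := by simp [circleMap]
    rw [h2]
    refine (norm_add_le _ _).trans ?_
    rw [h1, abs_of_pos hρ]
  have hc' : ‖c‖ ≤ ‖c‖ + ρ := by linarith
  have hbound : ∀ (θ : ℝ) (x : ℂ), ‖f (θ, x)‖ ≤
      |Real.log (‖x - circleMap c ρ θ‖ / ‖x - c‖)| * H x := by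
    intro θ x
    rw [hf]
    simp only [norm_mul, Complex.norm_real, Real.norm_eq_abs]
    exact mul_le_mul_of_nonneg_left (hH x) (abs_nonneg _)
  have hsec : ∀ θ : ℝ, Integrable fun x => f (θ, x) := fun θ =>
    (hk _ _ (hcn θ) hc').1.mono' (hmeas.comp measurable_prodMk_left).aestronglyMeasurable
      (Filter.Eventually.of_forall fun x => hbound θ x)
  have hint : Integrable f (μ.prod volume) := by
    rw [integrable_prod_iff hmeas.aestronglyMeasurable]
    refine ⟨Filter.Eventually.of_forall hsec, ?_⟩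
    refine Integrable.mono' (g := fun _ => K) (integrable_const K)
      hmeas.aestronglyMeasurable.norm.integral_prod_right' (Filter.Eventually.of_forall fun θ => ?_)
    rw [Real.norm_eq_abs, abs_of_nonneg (integral_nonneg fun x => norm_nonneg _)]
    refine le_trans (integral_mono (hsec θ).norm (hk _ _ (hcn θ) hc').1 fun x => hbound θ x) ?_
    exact (hk _ _ (hcn θ) hc').2
  have hswap := integral_integral_swap (f := fun θ x => f (θ, x)) hint
  have hL : ∫ θ, ∫ x, f (θ, x) ∂volume ∂μ = 0 := by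
    have : ∀ θ : ℝ, ∫ x, f (θ, x) = 0 := fun θ => hz (circleMap c ρ θ) c
    simp [this]
  rw [hL] at hswap
  have hR := hint.integral_prod_right
  -- the inner integral
  have hinner : ∀ᵐ x : ℂ, ∫ θ, f (θ, x) ∂μ = ((2 * π : ℝ) : ℂ) * (((wk c ρ x : ℝ) : ℂ) * ψ x) := by
    have hs : volume (Metric.sphere c ρ) = 0 := MeasureTheory.Measure.addHaar_sphere _ _ _
    have hc0 : volume ({c} : Set ℂ) = 0 := by simp
    filter_upwards [compl_mem_ae_iff.2 hs, compl_mem_ae_iff.2 hc0] with x hx1 hx2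
    have hxc : ‖x - c‖ ≠ 0 := by
      rw [norm_ne_zero_iff, sub_ne_zero]
      exact hx2
    have hxs : ∀ θ, ‖x - circleMap c ρ θ‖ ≠ 0 := by
      intro θ h0
      rw [norm_eq_zero, sub_eq_zero] at h0
      apply hx1
      rw [h0]
      exact circleMap_mem_sphere c hρ.le θ
    have h1 := circleAverage_log_norm_sub_const_eq_log_radius_add_posLog (c := c) (R := ρ) (a := x) hρ.ne'
    rw [circleAverage, smul_eq_mul, inv_mul_eq_iff_eq_mul₀ (by positivity)] at h1
    have h2 : ∫ θ, f (θ, x) ∂μ =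
        (∫ θ in (0 : ℝ)..(2 * π), ((Real.log ‖circleMap c ρ θ - x‖ - Real.log ‖x - c‖ : ℝ) : ℂ)) * ψ x := by
      rw [intervalIntegral.integral_of_le (by positivity), ← integral_mul_const]
      refine integral_congr_ae (Filter.Eventually.of_forall fun θ => ?_)
      simp only [hf]
      rw [Real.log_div (hxs θ) hxc, norm_sub_rev x (circleMap c ρ θ)]
    have h3 : IntervalIntegrable (fun θ => Real.log ‖circleMap c ρ θ - x‖) volume 0 (2 * π) :=
      circleIntegrable_log_norm_sub_const (a := x) (c := c) ρ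
    rw [h2, intervalIntegral.integral_ofReal, intervalIntegral.integral_sub h3 (by simp),
      intervalIntegral.integral_const, h1, wk]
    push_cast
    simp only [smul_eq_mul]
    push_cast
    ring
  have hpi : ((2 * π : ℝ) : ℂ) ≠ 0 := by
    have : (2 * π : ℝ) ≠ 0 := by positivity
    exact_mod_cast this
  constructor
  · have h1 : Integrable (fun x => ((2 * π : ℝ) : ℂ) * (((wk c ρ x : ℝ) : ℂ) * ψ x)) := hR.congr hinner
    have h2 := h1.const_mul (((2 * π : ℝ) : ℂ)⁻¹)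
    refine h2.congr (Filter.Eventually.of_forall fun x => ?_)
    simp only
    rw [← mul_assoc, inv_mul_cancel₀ hpi, one_mul]
  · have h1 : ∫ x, ((2 * π : ℝ) : ℂ) * (((wk c ρ x : ℝ) : ℂ) * ψ x) = 0 := by
      rw [← integral_congr_ae hinner]
      exact hswap.symm
    rw [integral_const_mul] at h1
    exact (mul_eq_zero.1 h1).resolve_left hpi

/-- the kernel is nonnegative, positive in the punctured ball -/
theorem wk_nonneg {c : ℂ} {ρ : ℝ} (hρ : 0 < ρ) {x : ℂ} (hx : x ≠ c) : 0 ≤ wk c ρ x := by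
  have h0 : 0 < ‖x - c‖ := norm_pos_iff.2 (sub_ne_zero.2 hx)
  have h1 : Real.log (ρ⁻¹ * ‖c - x‖) ≤ Real.posLog (ρ⁻¹ * ‖c - x‖) := by
    rw [Real.posLog_def]
    exact le_max_right _ _
  rw [norm_sub_rev c x, Real.log_mul (inv_ne_zero hρ.ne') h0.ne', Real.log_inv] at h1
  unfold wk
  rw [norm_sub_rev c x]
  linarith

theorem wk_eq_zero {c : ℂ} {ρ : ℝ} (hρ : 0 < ρ) {x : ℂ} (hx : ρ ≤ ‖x - c‖) : wk c ρ x = 0 := by
  have h0 : 0 < ‖x - c‖ := hρ.trans_le hx
  have h1 : Real.posLog (ρ⁻¹ * ‖x - c‖) = Real.log (ρ⁻¹ * ‖x - c‖) := by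
    apply Real.posLog_eq_log
    rw [abs_of_nonneg (by positivity), inv_mul_eq_div, le_div_iff₀ hρ]
    linarith
  unfold wk
  rw [norm_sub_rev c x, h1, Real.log_mul (inv_ne_zero hρ.ne') h0.ne', Real.log_inv]
  ring

theorem wk_pos {c : ℂ} {ρ : ℝ} {x : ℂ} (hx : x ≠ c) (hx2 : ‖x - c‖ < ρ) : 0 < wk c ρ x := by
  have h0 : 0 < ‖x - c‖ := norm_pos_iff.2 (sub_ne_zero.2 hx)
  have h1 : 0 ≤ Real.posLog (ρ⁻¹ * ‖c - x‖) := Real.posLog_nonneg
  have h2 := Real.log_lt_log h0 hx2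
  unfold wk
  linarith

end Run7.h153.EK
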