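import Pool.Agent.Run7.h153.EK.Fin

/-!
# The real span of the regulators is the space of all hermitian matrices
-/

set_option autoImplicit false

open MeasureTheory Polynomial
open scoped ComplexConjugate Topology

namespace Run7.h153.EK

variable {g : ℕ}

/-- the matrix of the regulator -/
noncomputable def Mt (g : ℕ) (D : ℂ[X]) (a b : ℂ) : Matrix (Fin g) (Fin g) ℂ := fun k l =>
  ∫ x : ℂ, ((Real.log (‖x - a‖ / ‖x - b‖) / ‖D.eval x‖ : ℝ) : ℂ) * (x ^ (k : ℕ) * conj (x ^ (l : ℕ)))

theorem Mt_herm (D : ℂ[X]) (a b : ℂ) : (Mt g D a b).IsHermitian := by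
  ext k l
  rw [Matrix.conjTranspose_apply, Mt, Mt]
  change conj (∫ x : ℂ, _) = _
  rw [← integral_conj]
  refine integral_congr_ae (Filter.Eventually.of_forall fun x => ?_)
  simp only [map_mul, Complex.conj_ofReal, Complex.conj_conj]
  ring

theorem sum_Mt (hg : 1 ≤ g) {D : ℂ[X]} (hD : Squarefree D) (hdeg : D.natDegree = 2 * g + 2)
    (h : Matrix (Fin g) (Fin g) ℂ) (a b : ℂ) :
    ∑ k, ∑ l, h k l * Mt g D a b k l = ∫ x : ℂ, ((Real.log (‖x - a‖ / ‖x - b‖) : ℝ) : ℂ) *
      (sesq h x (conj x) / ‖D.eval x‖) := by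
  have h1 : ∀ k l : Fin g, h k l * Mt g D a b k l = ∫ x : ℂ, h k l *
      (((Real.log (‖x - a‖ / ‖x - b‖) / ‖D.eval x‖ : ℝ) : ℂ) * (x ^ (k : ℕ) * conj (x ^ (l : ℕ)))) := by
    intro k l
    rw [integral_const_mul, Mt]
  simp only [h1]
  have hi : ∀ k l : Fin g, Integrable fun x : ℂ => h k l *
      (((Real.log (‖x - a‖ / ‖x - b‖) / ‖D.eval x‖ : ℝ) : ℂ) * (x ^ (k : ℕ) * conj (x ^ (l : ℕ)))) :=
    fun k l => (integrable_entry hg hD hdeg a b k.2 l.2).const_mul _
  have h2 : ∀ k : Fin g, ∑ l, ∫ x : ℂ, h k l *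
      (((Real.log (‖x - a‖ / ‖x - b‖) / ‖D.eval x‖ : ℝ) : ℂ) * (x ^ (k : ℕ) * conj (x ^ (l : ℕ)))) =
      ∫ x : ℂ, ∑ l, h k l *
      (((Real.log (‖x - a‖ / ‖x - b‖) / ‖D.eval x‖ : ℝ) : ℂ) * (x ^ (k : ℕ) * conj (x ^ (l : ℕ)))) :=
    fun k => (integral_finsetSum _ fun l _ => hi k l).symm
  simp only [h2]
  rw [← integral_finsetSum _ fun k _ => integrable_finsetSum _ fun l _ => hi k l]
  refine integral_congr_ae (Filter.Eventually.of_forall fun x => ?_)
  simp only [sesq, map_pow, Complex.ofReal_div]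
  rw [Finset.sum_div, Finset.mul_sum]
  refine Finset.sum_congr rfl fun k _ => ?_
  rw [Finset.sum_div, Finset.mul_sum]
  refine Finset.sum_congr rfl fun l _ => ?_
  ring

/-- a real linear form on matrices -/
theorem form_eq (f : Matrix (Fin g) (Fin g) ℂ →ₗ[ℝ] ℝ) (N : Matrix (Fin g) (Fin g) ℂ) :
    f N = (∑ k, ∑ l, ((f (Matrix.single k l 1) : ℂ) - Complex.I * (f (Matrix.single k l Complex.I) : ℂ)) *
      N k l).re := by
  have h1 : N = ∑ k, ∑ l, ((N k l).re • Matrix.single k l (1 : ℂ) +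
      (N k l).im • Matrix.single k l Complex.I) := by
    conv_lhs => rw [Matrix.matrix_eq_sum_single N]
    refine Finset.sum_congr rfl fun k _ => Finset.sum_congr rfl fun l _ => ?_
    rw [Matrix.smul_single, Matrix.smul_single, ← Matrix.single_add]
    congr 1
    rw [Complex.real_smul, Complex.real_smul, mul_one]
    exact (Complex.re_add_im (N k l)).symm
  conv_lhs => rw [h1]
  rw [map_sum, Complex.re_sum]
  refine Finset.sum_congr rfl fun k _ => ?_
  rw [map_sum, Complex.re_sum]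
  refine Finset.sum_congr rfl fun l _ => ?_
  rw [map_add, map_smul, map_smul]
  simp only [smul_eq_mul, Complex.mul_re, Complex.sub_re, Complex.sub_im, Complex.ofReal_re,
    Complex.ofReal_im, Complex.mul_im, Complex.I_re, Complex.I_im]
  ring

theorem span_eq (hg : 1 ≤ g) {D : ℂ[X]} (hD : Squarefree D) (hdeg : D.natDegree = 2 * g + 2) :
    (Submodule.span ℝ (Set.range fun p : ℂ × ℂ => Mt g D p.1 p.2) : Set (Matrix (Fin g) (Fin g) ℂ)) =
      {M | M.IsHermitian} := by
  apply Set.Subset.antisymm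
  · intro M hM
    have h1 : Submodule.span ℝ (Set.range fun p : ℂ × ℂ => Mt g D p.1 p.2) ≤
        selfAdjoint.submodule ℝ (Matrix (Fin g) (Fin g) ℂ) := by
      rw [Submodule.span_le]
      rintro _ ⟨p, rfl⟩
      exact Mt_herm D p.1 p.2
    exact h1 hM
  · intro M hM
    by_contra hcon
    obtain ⟨f, hf, hle⟩ := Submodule.exists_le_ker_of_notMem hcon
    set h : Matrix (Fin g) (Fin g) ℂ := fun k l =>
      (f (Matrix.single k l 1) : ℂ) - Complex.I * (f (Matrix.single k l Complex.I) : ℂ) with hh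
    set h' : Matrix (Fin g) (Fin g) ℂ := fun k l => h k l + conj (h l k) with hh'
    have key : ∀ N : Matrix (Fin g) (Fin g) ℂ, N.IsHermitian →
        ∑ k, ∑ l, h' k l * N k l = ((2 * f N : ℝ) : ℂ) := by
      intro N hN
      have e1 : f N = (∑ k, ∑ l, h k l * N k l).re := form_eq f N
      have e2 : ∑ k, ∑ l, conj (h l k) * N k l = conj (∑ k, ∑ l, h k l * N k l) := by
        rw [Finset.sum_comm, map_sum]
        refine Finset.sum_congr rfl fun k _ => ?_
        rw [map_sum]
        refine Finset.sum_congr rfl fun l _ => ?_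
        rw [map_mul]
        congr 1
        have := hN.apply k l
        rw [← this]
        simp
      have e3 : ∑ k, ∑ l, h' k l * N k l =
          ∑ k, ∑ l, h k l * N k l + ∑ k, ∑ l, conj (h l k) * N k l := by
        simp only [hh', add_mul, Finset.sum_add_distrib]
      rw [e3, e2, Complex.add_conj, e1]
    have h0 : h' = 0 := by
      apply annihilator hg hD hdeg
      intro a b
      rw [← sum_Mt hg hD hdeg h' a b, key _ (Mt_herm D a b)]
      have h1 : f (Mt g D a b) = 0 := hle (Submodule.subset_span ⟨(a, b), rfl⟩)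
      rw [h1]
      simp
    have h2 := key M hM
    rw [h0] at h2
    simp only [Matrix.zero_apply, zero_mul, Finset.sum_const_zero] at h2
    have h3 : (2 * f M : ℝ) = 0 := by exact_mod_cast h2.symm
    exact hf (by linarith)

end Run7.h153.EK
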